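import Pool.Agent.H70.NE.Targets
import Pool.Agent.H33.NC.FEX

/-! # SUM: the sum of the errors -/

namespace Pool.Agent.H90.NE

open Finset Pool.Agent.H70.NE

/-- the telescoping bound -/
theorem sum_tel (N : ℕ) : ∑ n ∈ range (N + 3), (if 3 ≤ n then
    (8 / 100 : ℝ) * (1 / (n : ℝ) - 1 / ((n : ℝ) + 1)) else 0) =
    8 / 100 * (1 / 3 - 1 / ((N : ℝ) + 3)) := by
  induction N with
  | zero => norm_num [Finset.sum_range_succ]
  | succ N ih =>
    rw [show N + 1 + 3 = (N + 3) + 1 from rfl, Finset.sum_range_succ, ih,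
      if_pos (by omega : 3 ≤ N + 3)]
    push_cast
    have h1 : (N : ℝ) + 3 ≠ 0 := by positivity
    have h2 : (N : ℝ) + 3 + 1 ≠ 0 := by positivity
    have h3 : (N : ℝ) + 1 + 3 ≠ 0 := by positivity
    field_simp
    ring

theorem pf_sum : T_SUM := by
  intro J hJ
  refine ⟨Pool.Agent.H33.NC.geo J hJ, ?_⟩
  obtain ⟨N, hN⟩ : ∃ N : ℕ, ∀ e ∈ J, e.2 < N + 3 := by
    refine ⟨J.sup (fun e => e.2), fun e he => ?_⟩
    have h0 : e.2 ≤ J.sup (fun e => e.2) := le_sup (f := fun e : ℕ × ℕ => e.2) he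
    omega
  have h1 : ∑ e ∈ J, (8 : ℝ) / (100 * ((e.2 : ℝ) + 1) ^ 3) =
      ∑ n ∈ range (N + 3), ∑ e ∈ J with e.2 = n, (8 : ℝ) / (100 * ((e.2 : ℝ) + 1) ^ 3) :=
    (Finset.sum_fiberwise_of_maps_to (fun e he => Finset.mem_range.2 (hN e he)) _).symm
  have h2 : ∀ n ∈ range (N + 3), ∑ e ∈ J with e.2 = n, (8 : ℝ) / (100 * ((e.2 : ℝ) + 1) ^ 3) ≤
      (if 3 ≤ n then (8 / 100 : ℝ) * (1 / (n : ℝ) - 1 / ((n : ℝ) + 1)) else 0) := by
    intro n _
    split_ifs with h3
    · have h4 : ∀ e ∈ J.filter (fun e => e.2 = n), (8 : ℝ) / (100 * ((e.2 : ℝ) + 1) ^ 3) =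
          8 / (100 * ((n : ℝ) + 1) ^ 3) := by
        intro e he
        rw [(Finset.mem_filter.1 he).2]
      rw [Finset.sum_congr rfl h4, Finset.sum_const, nsmul_eq_mul]
      have h5 : (J.filter (fun e => e.2 = n)).card ≤ n := by
        calc (J.filter (fun e => e.2 = n)).card ≤ (range n).card := by
              refine Finset.card_le_card_of_injOn (fun e => e.1) ?_ ?_
              · intro e he
                have h6 := Finset.mem_filter.1 (Finset.mem_coe.1 he)
                have h7 := hJ e h6.1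
                have h8 := h6.2
                have h9 : e.1 < n := by omega
                exact Finset.mem_coe.2 (Finset.mem_range.2 h9)
              · intro e he e' he' h
                have h6 := (Finset.mem_filter.1 (Finset.mem_coe.1 he)).2
                have h7 := (Finset.mem_filter.1 (Finset.mem_coe.1 he')).2
                exact Prod.ext h (h6.trans h7.symm)
          _ = n := Finset.card_range n
      have hn : (0 : ℝ) < n := by
        have : 0 < n := by omega
        exact_mod_cast this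
      have h6 : ((J.filter (fun e => e.2 = n)).card : ℝ) ≤ n := by exact_mod_cast h5
      calc ((J.filter (fun e => e.2 = n)).card : ℝ) * (8 / (100 * ((n : ℝ) + 1) ^ 3))
          ≤ n * (8 / (100 * ((n : ℝ) + 1) ^ 3)) := by gcongr
        _ ≤ (8 / 100 : ℝ) * (1 / (n : ℝ) - 1 / ((n : ℝ) + 1)) := by
          rw [div_sub_div _ _ hn.ne' (by positivity : (n : ℝ) + 1 ≠ 0), ← mul_div_assoc,
            ← mul_div_assoc, div_le_div_iff₀ (by positivity) (by positivity)]
          have h7 : (0 : ℝ) ≤ n := hn.le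
          nlinarith [mul_nonneg h7 h7, mul_nonneg (mul_nonneg h7 h7) h7]
    · refine le_of_eq (Finset.sum_eq_zero fun e he => ?_)
      have h4 := Finset.mem_filter.1 he
      have h5 := hJ e h4.1
      have h6 := h4.2
      omega
  rw [h1]
  refine (Finset.sum_le_sum h2).trans ?_
  rw [sum_tel]
  have h3 : (0 : ℝ) ≤ 1 / ((N : ℝ) + 3) := by positivity
  linarith

end Pool.Agent.H90.NE
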